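import Pool.Agent.H47.OpIdeal.Transfer

/-!
# MP_df739d_an: the local reflexivity principle implies right-accessibility
-/

set_option autoImplicit false
set_option maxSynthPendingDepth 3

open Pool.Agent.H47.OpIdeal.Stmt

namespace Pool.Agent.Results.MP_df739d_an.LRPAccessible

/-- If a Banach ideal `B` satisfies the `B`-local reflexivity principle, then `B` is
right-accessible. -/
theorem result (𝕜 : Type) [RCLike 𝕜] (B : BanachIdeal 𝕜) (h : B.LRP) : B.IsRightAccessible :=
  isRightAccessible_of_LRP h

end Pool.Agent.Results.MP_df739d_an.LRPAccessible
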