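import Pool.Agent.H47.OpIdeal.Transfer

/-!
# MP_df739d_an, Q1: full (positive) answer
-/

set_option autoImplicit false
set_option maxSynthPendingDepth 3

open scoped ENNReal
open Pool.Agent.H47.OpIdeal.Stmt

namespace Pool.Agent.Results.MP_df739d_an.LocalReflexivityFails

/-- Let `B` be a maximal Banach ideal, `X₀`, `Y₀` Banach spaces such that `X₀'` and `Y₀` have
cotype 2 and `B^*(X₀, Y₀)` is not contained in `𝔏_2(X₀, Y₀)`. If `B ∘ 𝔏_∞` has property (I),
then the `B`-local reflexivity principle fails. -/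
theorem result (𝕜 : Type) [RCLike 𝕜] (B : BanachIdeal 𝕜) (hmax : B.IsMaximal)
    (X₀ Y₀ : Ban 𝕜) (hX : HasCotypeTwo X₀.dual) (hY : HasCotypeTwo Y₀)
    (hne : ∃ T : Op X₀ Y₀, B.adjNrm T < ∞ ∧ ¬ FactorsThroughHilbert T)
    (hI : B.PropertyI) : ¬ B.LRP := by
  intro hLRP
  obtain ⟨T, h1, h2⟩ := hne
  exact h2 (main hmax hI hLRP hX hY T h1)

end Pool.Agent.Results.MP_df739d_an.LocalReflexivityFails
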